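import Pool.Agent.H97R2.LPB.Props
import Pool.Agent.H102R2.Z5.Brick

/-! `S_pair`: mutual energy of two different bricks. -/

open Polynomial Filter Topology MeasureTheory Pool.Agent.H337R2 Pool.Agent.LP

namespace Pool.Agent.LPB

namespace H479P

open Pool.Agent.H102R2

/-- sum over one progression -/
theorem inner {z d : ℝ} (hz : 1 / 2 ≤ z) (hd : 1 / 2 ≤ d) (n : ℕ) :
    (Z5.Psi (z + d * n) - Z5.Psi z) / d - Real.log (2 * z + 2 * d * n) ≤
      ∑ j ∈ Finset.range n, Real.log (z + d * j) := by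
  have hd0 : 0 < d := by linarith
  have hn0 : (0 : ℝ) ≤ n := Nat.cast_nonneg n
  have h1 := (Z5.sum_log_pos (2 * z) (by linarith) (2 * d) (by linarith) n).2
  have h2 : ∑ j ∈ Finset.range n, Real.log (2 * z + 2 * d * j) =
      n * Real.log 2 + ∑ j ∈ Finset.range n, Real.log (z + d * j) := by
    have h3 : ∀ j ∈ Finset.range n, Real.log (2 * z + 2 * d * j) =
        Real.log 2 + Real.log (z + d * j) := by
      intro j _
      have hj : (0 : ℝ) ≤ d * j := by positivity
      rw [← Real.log_mul (by norm_num) (by linarith)]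
      congr 1
      ring
    rw [Finset.sum_congr rfl h3, Finset.sum_add_distrib, Finset.sum_const, Finset.card_range,
      nsmul_eq_mul]
  have h4 : ∀ x : ℝ, 0 < x → Z5.Psi (2 * x) = 2 * Z5.Psi x + 2 * x * Real.log 2 := by
    intro x hx
    unfold Z5.Psi
    rw [Real.log_mul (by norm_num) hx.ne']
    ring
  have hdn : 0 ≤ d * n := by positivity
  have h5 := h4 z (by linarith)
  have h6 := h4 (z + d * n) (by linarith)
  have h7 : 2 * (z + d * n) = 2 * z + 2 * d * n := by ring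
  rw [h7] at h6
  rw [h2, h5, h6] at h1
  have h8 : 0 ≤ Real.log (2 * z) := Real.log_nonneg (by linarith)
  have h9 : (Z5.Psi (z + d * n) - Z5.Psi z) ≤
      d * (∑ j ∈ Finset.range n, Real.log (z + d * j) + Real.log (2 * z + 2 * d * n)) := by
    have h10 : 0 ≤ d * Real.log (2 * z) := by positivity
    nlinarith
  rw [sub_le_iff_le_add, div_le_iff₀ hd0]
  linarith

theorem G_scale {r : ℝ} (hr : 0 < r) (z : ℝ) :
    Z5.G2 (r * z) = r ^ 2 * GG z + r ^ 2 * z ^ 2 / 2 * Real.log r := by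
  unfold GG Z5.G2
  rcases eq_or_ne z 0 with h | h
  · subst h; simp
  · rw [Real.log_mul hr.ne' h]; ring

theorem GG_neg (z : ℝ) : GG (-z) = GG z := by
  unfold GG; rw [Real.log_neg_eq_log]; ring

/-- shift of the argument -/
theorem G_shift {z e W : ℝ} (he : 0 < e) (hz : 0 ≤ z) (hW : z + e ≤ W) (hW1 : 1 ≤ W) :
    |Z5.G2 (z + e) - Z5.G2 z| ≤ e * ((W + e) * Real.log W + 4) := by
  have hl := Real.log_nonneg hW1
  have h1 := Z5.G2_step z e W he (by rw [abs_of_nonneg hz]; exact hW) hW1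
  have h2 := Z5.abs_Psi_sub_le (x := 0) (y := z) (W := W) hW1 (by rw [abs_zero]; linarith) (by
    rw [abs_of_nonneg hz]; linarith)
  rw [Z5.Psi_zero, sub_zero, sub_zero, abs_of_nonneg hz] at h2
  have h3 : z * Real.log W ≤ W * Real.log W := mul_le_mul_of_nonneg_right (by linarith) hl
  have h4 : |e * Z5.Psi z| ≤ e * (W * Real.log W + 2) := by
    rw [abs_mul, abs_of_pos he]
    exact mul_le_mul_of_nonneg_left (by linarith) he.le
  rw [abs_le] at h1 h4 ⊢
  constructor <;> nlinarith [h1.1, h1.2, h4.1, h4.2]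

/-- last algebraic step -/
theorem final_step {c d n L E F S : ℝ} (hc0 : 0 < c) (hd0 : 0 < d) (hcd : 1 / 4 ≤ c * d)
    (hnL : 0 ≤ n * L) (k3 : (E + F) * (c * d) - 5000 * (n * L) ≤ c * S) :
    E + F - 100000 * n * L ≤ S / d - n * (6 * L) := by
  have h2 : 5000 * (n * L) ≤ 20000 * (n * L) * (c * d) := by
    have := mul_le_mul_of_nonneg_left hcd (show 0 ≤ 20000 * (n * L) by linarith)
    linarith
  have k4 : (E + F) - 20000 * (n * L) ≤ S / d := by
    rw [le_div_iff₀ hd0]
    have h1 : ((E + F) - 20000 * (n * L)) * d * c ≤ S * c := by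
      have h3 : ((E + F) - 20000 * (n * L)) * d * c =
        (E + F) * (c * d) - 20000 * (n * L) * (c * d) := by ring
      rw [h3, mul_comm S c]
      linarith
    exact le_of_mul_le_mul_right h1 hc0
  have e1 : 100000 * n * L = 100000 * (n * L) := by ring
  have e2 : n * (6 * L) = 6 * (n * L) := by ring
  rw [e1, e2]
  linarith

/-- the case `a + c ≤ b` -/
theorem case1 {n : ℕ} (hn : 2 ≤ n) {a c b d : ℝ} (hc : 1 / 2 ≤ c) (hc3 : c ≤ 3) (hd : 1 / 2 ≤ d)
    (hd3 : d ≤ 3) (ha : |a| ≤ 3) (hb : |b| ≤ 3) (hab : a + c ≤ b) :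
    en a (a + c) b (b + d) * (n : ℝ) ^ 2 + (n : ℝ) ^ 2 * Real.log n - 100000 * n * Real.log n ≤
      ∑ i ∈ Finset.range n, ∑ j ∈ Finset.range n,
        Real.log |(a * n + c * ((i : ℝ) + 1 / 2)) - (b * n + d * ((j : ℝ) + 1 / 2))| := by
  have hn2 : (2 : ℝ) ≤ n := by exact_mod_cast hn
  have hn0 : (0 : ℝ) < n := by linarith
  have hl2 : (0.69 : ℝ) < Real.log 2 := by
    have := Real.log_two_gt_d9
    linarith
  have hL2 : Real.log 2 ≤ Real.log n := Real.log_le_log (by norm_num) hn2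
  have hc0 : 0 < c := by linarith
  have hd0 : 0 < d := by linarith
  rw [abs_le] at ha hb
  set L := Real.log n with hL
  have hL0 : 0 < L := by linarith
  set z₀ : ℝ := (b - a - c) * n + (c + d) / 2 with hz₀
  have hu0 : 0 ≤ b - a - c := by linarith
  have hu6 : b - a - c ≤ 6 := by linarith
  have hy0 : 0 ≤ (b - a - c) * n := by positivity
  have hy6 : (b - a - c) * n ≤ 6 * n := mul_le_mul_of_nonneg_right hu6 hn0.le
  set W : ℝ := 32 * n with hW
  have hW1 : 1 ≤ W := by linarith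
  have hlogW : Real.log W ≤ 6 * L := by
    rw [hW, show (32 : ℝ) = 2 ^ 5 by norm_num, Real.log_mul (by norm_num) hn0.ne', Real.log_pow,
      ← hL]
    push_cast
    linarith
  have hlW0 : 0 ≤ Real.log W := Real.log_nonneg hW1
  have hcn : c * n ≤ 3 * n := mul_le_mul_of_nonneg_right hc3 hn0.le
  have hdn : d * n ≤ 3 * n := mul_le_mul_of_nonneg_right hd3 hn0.le
  have hcn0 : 0 < c * n := by positivity
  have hdn0 : 0 < d * n := by positivity
  -- the double sum, reversed
  have e1 : ∑ i ∈ Finset.range n, ∑ j ∈ Finset.range n,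
        Real.log |(a * n + c * ((i : ℝ) + 1 / 2)) - (b * n + d * ((j : ℝ) + 1 / 2))| =
      ∑ i ∈ Finset.range n, ∑ j ∈ Finset.range n, Real.log ((z₀ + c * i) + d * j) := by
    rw [← Finset.sum_range_reflect]
    refine Finset.sum_congr rfl fun i hi => Finset.sum_congr rfl fun j _ => ?_
    rw [Finset.mem_range] at hi
    have h1 : ((n - 1 - i : ℕ) : ℝ) = n - 1 - i := by
      rw [Nat.cast_sub (by omega), Nat.cast_sub (by omega)]
      push_cast
      ring
    rw [h1, abs_sub_comm]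
    have h2 : b * n + d * ((j : ℝ) + 1 / 2) - (a * n + c * ((n : ℝ) - 1 - i + 1 / 2)) =
        (z₀ + c * i) + d * j := by
      rw [hz₀]
      ring
    rw [h2, Real.log_abs]
  rw [e1]
  -- inner sums
  have s1 : ∀ i ∈ Finset.range n, (Z5.Psi ((z₀ + d * n) + c * i) - Z5.Psi (z₀ + c * i)) / d -
      6 * L ≤ ∑ j ∈ Finset.range n, Real.log ((z₀ + c * i) + d * j) := by
    intro i hi
    rw [Finset.mem_range] at hi
    have hin : (i : ℝ) ≤ n := by exact_mod_cast hi.le
    have hi0 : (0 : ℝ) ≤ i := Nat.cast_nonneg i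
    have hci : c * i ≤ 3 * n := (mul_le_mul_of_nonneg_left hin hc0.le).trans hcn
    have hci0 : 0 ≤ c * i := by positivity
    have h1 := inner (z := z₀ + c * i) (d := d) (by rw [hz₀]; linarith) hd n
    have h2 : Real.log (2 * (z₀ + c * i) + 2 * d * n) ≤ 6 * L := by
      refine (Real.log_le_log ?_ ?_).trans hlogW
      · rw [hz₀]; linarith
      · rw [hz₀, hW]; linarith
    have h3 : (z₀ + c * i) + d * n = (z₀ + d * n) + c * i := by ring
    rw [h3] at h1
    linarith
  have s2 := Finset.sum_le_sum s1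
  rw [Finset.sum_sub_distrib, ← Finset.sum_div, Finset.sum_sub_distrib, Finset.sum_const,
    Finset.card_range, nsmul_eq_mul] at s2
  -- outer sums
  have o1 := Z5.outer (z₀ + d * n) c hc0 n W (by
    rw [abs_of_nonneg (by rw [hz₀]; linarith), hz₀, hW]; linarith) hW1
  have o2 := Z5.outer z₀ c hc0 n W (by
    rw [abs_of_nonneg (by rw [hz₀]; linarith), hz₀, hW]; linarith) hW1
  have hcW : c * Real.log W + 2 ≤ 21 * L := by
    have : c * Real.log W ≤ 3 * (6 * L) := mul_le_mul hc3 hlogW hlW0 (by norm_num)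
    linarith
  have ho : (n : ℝ) * (c * Real.log W + 2) ≤ n * (21 * L) :=
    mul_le_mul_of_nonneg_left hcW hn0.le
  rw [abs_le] at o1 o2
  -- shifts
  set y₀ : ℝ := (b - a - c) * n with hy₀
  set ε : ℝ := (c + d) / 2 with hε
  have hε0 : 0 < ε := by rw [hε]; linarith
  have hε3 : ε ≤ 3 := by rw [hε]; linarith
  have hsh : ∀ t : ℝ, 0 ≤ t → t ≤ 12 * n → |Z5.G2 (t + ε) - Z5.G2 t| ≤ 1000 * (n * L) := by
    intro t ht0 ht
    have h1 := G_shift (z := t) (e := ε) (W := W) hε0 ht0 (by rw [hW]; linarith) hW1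
    refine h1.trans ?_
    have h2 : (W + ε) * Real.log W ≤ (34 * n) * (6 * L) := by
      refine mul_le_mul ?_ hlogW hlW0 (by positivity)
      rw [hW]; linarith
    have h3 : ε * ((W + ε) * Real.log W + 4) ≤ 3 * ((34 * n) * (6 * L) + 4) := by
      refine mul_le_mul hε3 (by linarith) ?_ (by norm_num)
      have : 0 ≤ (W + ε) * Real.log W := mul_nonneg (by linarith) hlW0
      linarith
    refine h3.trans ?_
    have h4 : 1.38 ≤ n * L := by nlinarith
    nlinarith
  have t1 := hsh (y₀ + d * n + c * n) (by linarith) (by linarith)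
  have t2 := hsh (y₀ + d * n) (by linarith) (by linarith)
  have t3 := hsh (y₀ + c * n) (by linarith) (by linarith)
  have t4 := hsh y₀ (by linarith) (by linarith)
  rw [abs_le] at t1 t2 t3 t4
  have r1 : z₀ + d * n + c * n = y₀ + d * n + c * n + ε := by rw [hz₀]; ring
  have r2 : z₀ + d * n = y₀ + d * n + ε := by rw [hz₀]; ring
  have r3 : z₀ + c * n = y₀ + c * n + ε := by rw [hz₀]; ring
  have r4 : z₀ = y₀ + ε := hz₀
  rw [← r1] at t1
  rw [← r2] at t2
  rw [← r3] at t3
  rw [← r4] at t4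
  -- scaling
  have g1 : Z5.G2 (y₀ + d * n + c * n) = n ^ 2 * GG (b + d - a) +
      n ^ 2 * (b + d - a) ^ 2 / 2 * L := by
    rw [← G_scale hn0, hy₀]; congr 1; ring
  have g2 : Z5.G2 (y₀ + d * n) = n ^ 2 * GG (b + d - a - c) +
      n ^ 2 * (b + d - a - c) ^ 2 / 2 * L := by
    rw [← G_scale hn0, hy₀]; congr 1; ring
  have g3 : Z5.G2 (y₀ + c * n) = n ^ 2 * GG (b - a) + n ^ 2 * (b - a) ^ 2 / 2 * L := by
    rw [← G_scale hn0, hy₀]; congr 1; ring
  have g4 : Z5.G2 y₀ = n ^ 2 * GG (b - a - c) + n ^ 2 * (b - a - c) ^ 2 / 2 * L := by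
    rw [← G_scale hn0, hy₀]; congr 1; ring
  have hen : en a (a + c) b (b + d) * (c * d) =
      GG (b - a - c) - GG (b + d - a - c) - GG (b - a) + GG (b + d - a) := by
    unfold en
    rw [show a + c - b = -(b - a - c) by ring, show a + c - (b + d) = -(b + d - a - c) by ring,
      show a - b = -(b - a) by ring, show a - (b + d) = -(b + d - a) by ring, GG_neg, GG_neg,
      GG_neg, GG_neg, show a + c - a = c by ring, show b + d - b = d by ring]
    field_simp
  -- combination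
  set S1 := ∑ i ∈ Finset.range n, Z5.Psi ((z₀ + d * n) + c * i) with hS1
  set S2 := ∑ i ∈ Finset.range n, Z5.Psi (z₀ + c * i) with hS2
  refine le_trans ?_ s2
  have hnL : 0 < n * L := by positivity
  -- multiply by `c d`
  have k1 : (Z5.G2 (z₀ + d * n + c * n) - Z5.G2 (z₀ + d * n)) - c * (n * (21 * L)) ≤ c * S1 := by
    have h1 : (Z5.G2 (z₀ + d * n + c * n) - Z5.G2 (z₀ + d * n)) / c - n * (21 * L) ≤ S1 := by
      linarith [o1.1]
    have h2 := mul_le_mul_of_nonneg_left h1 hc0.le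
    rw [mul_sub, mul_div_cancel₀ _ hc0.ne'] at h2
    exact h2
  have k2 : c * S2 ≤ (Z5.G2 (z₀ + c * n) - Z5.G2 z₀) + c * (n * (21 * L)) := by
    have h1 : S2 ≤ (Z5.G2 (z₀ + c * n) - Z5.G2 z₀) / c + n * (21 * L) := by
      linarith [o2.2]
    have h2 := mul_le_mul_of_nonneg_left h1 hc0.le
    rw [mul_add, mul_div_cancel₀ _ hc0.ne'] at h2
    exact h2
  have hcnL : c * (n * (21 * L)) ≤ 63 * (n * L) := by nlinarith
  have k3 : (en a (a + c) b (b + d) * (n : ℝ) ^ 2 + (n : ℝ) ^ 2 * L) * (c * d) - 5000 * (n * L) ≤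
      c * (S1 - S2) := by
    have h1 : (en a (a + c) b (b + d) * (n : ℝ) ^ 2 + (n : ℝ) ^ 2 * L) * (c * d) =
        Z5.G2 (y₀ + d * n + c * n) - Z5.G2 (y₀ + d * n) - Z5.G2 (y₀ + c * n) + Z5.G2 y₀ := by
      rw [g1, g2, g3, g4]
      have h2 : (en a (a + c) b (b + d) * (n : ℝ) ^ 2 + (n : ℝ) ^ 2 * L) * (c * d) =
          (n : ℝ) ^ 2 * (en a (a + c) b (b + d) * (c * d)) + (n : ℝ) ^ 2 * L * (c * d) := by ring
      rw [h2, hen]
      ring
    rw [h1]
    linarith [t1.1, t1.2, t2.1, t2.2, t3.1, t3.2, t4.1, t4.2]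
  have hcd : 1 / 4 ≤ c * d := by
    have := mul_le_mul hc hd (by norm_num) hc0.le
    linarith
  exact final_step hc0 hd0 hcd hnL.le k3

end H479P

open H479P in
theorem G6_pair : S_pair := by
  refine ⟨100000, by norm_num, ?_⟩
  intro n hn a c b d hc hc3 hd hd3 ha hb hab
  rcases hab with hab | hab
  · have h := case1 hn hd hd3 hc hc3 hb ha hab
    have e1 : en b (b + d) a (a + c) = en a (a + c) b (b + d) := by
      unfold en
      rw [show b + d - a = -(a - (b + d)) by ring, show b + d - (a + c) = -(a + c - (b + d)) by ring,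
        show b - a = -(a - b) by ring, show b - (a + c) = -(a + c - b) by ring, GG_neg, GG_neg,
        GG_neg, GG_neg, mul_comm]
      congr 1
      · ring
    rw [e1, Finset.sum_comm] at h
    refine h.trans (le_of_eq ?_)
    refine Finset.sum_congr rfl fun i _ => Finset.sum_congr rfl fun j _ => ?_
    rw [abs_sub_comm]
  · exact case1 hn hc hc3 hd hd3 ha hb hab

end Pool.Agent.LPB
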